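import Mathlib

set_option autoImplicit false

/-!
Helper file for MP_2b57cc_co: generalities on induced copies of a poset inside a family,
the greedy completion of a copy-free family, and the ground set used in the construction.
-/

namespace Pool.Agent.Lib.MP_2b57cc_co

/-- The family `F` of elements of the poset `X` contains an induced copy of the poset `P`. -/
def Copy (P X : Type) [LE P] [LE X] (F : Set X) : Prop :=
  ∃ b : P → X, (∀ p, b p ∈ F) ∧ ∀ p q, p ≤ q ↔ b p ≤ b q

theorem Copy.mono {P X : Type} [LE P] [LE X] {F F' : Set X} (h : F ⊆ F')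
    (hc : Copy P X F) : Copy P X F' := by
  obtain ⟨b, hb, hb'⟩ := hc
  exact ⟨b, fun p => h (hb p), hb'⟩

/-- Greedy completion: a copy-free family `F0 ⊆ R` such that every element outside `R`
completes a copy extends to a saturated family inside `R`. -/
theorem greedy {P X : Type} [LE P] [LE X] [Finite X] (F0 R : Set X)
    (h0 : ¬ Copy P X F0) (_hR0 : F0 ⊆ R)
    (hR : ∀ G, G ∉ R → Copy P X (insert G F0)) :
    ∃ F : Set X, F ⊆ R ∧ ¬ Copy P X F ∧ ∀ G, G ∉ F → Copy P X (insert G F) := by
  classical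
  have hfin : {F : Set X | F0 ⊆ F ∧ ¬ Copy P X F}.Finite := Set.toFinite _
  obtain ⟨F, hF⟩ := hfin.exists_maximal ⟨F0, ⟨subset_rfl, h0⟩⟩
  obtain ⟨⟨hF0, hFc⟩, hmax⟩ := hF
  refine ⟨F, ?_, hFc, ?_⟩
  · intro G hG
    by_contra hGR
    exact hFc ((hR G hGR).mono (Set.insert_subset hG hF0))
  · intro G hG
    by_contra hno
    have h1 : insert G F ∈ {F : Set X | F0 ⊆ F ∧ ¬ Copy P X F} :=
      ⟨hF0.trans (Set.subset_insert _ _), hno⟩
    have h2 := hmax h1 (Set.subset_insert G F)
    exact hG (h2 (Set.mem_insert G F))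

/-- Copies of a disjoint union of chains from a system of pairwise incomparable chains. -/
theorem copy_of_chains {ι' X : Type} [PartialOrder X] (i : ι' → ℕ) (F : Set X)
    (u : ι' → ℕ → X) (hF : ∀ j a, a < i j → u j a ∈ F)
    (hmono : ∀ j a a', a < a' → a' < i j → u j a < u j a')
    (hinc : ∀ j j', j ≠ j' → ∀ a, a < i j → ∀ a', a' < i j' → ¬ u j a ≤ u j' a') :
    Copy (Σ j, Fin (i j)) X F := by
  refine ⟨fun p => u p.1 p.2, fun p => hF _ _ p.2.isLt, ?_⟩
  rintro ⟨j, a⟩ ⟨j', a'⟩
  constructor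
  · intro h
    obtain ⟨hj, h⟩ := Sigma.le_def.mp h
    dsimp only at hj
    subst hj
    rcases (show a ≤ a' from h).lt_or_eq with h | h
    · exact (hmono _ a a' h a'.isLt).le
    · rw [h]
  · intro h
    by_cases hj : j = j'
    · subst hj
      rw [Sigma.mk_le_mk_iff]
      by_contra hlt
      push Not at hlt
      have := hmono j a' a hlt a.isLt
      exact absurd (lt_of_lt_of_le this h) (lt_irrefl _)
    · exact absurd h (hinc j j' hj a a.isLt a' a'.isLt)

/-- The ground set: `M` generic points `x`, and boundedly many special points. -/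
inductive V (M K m : ℕ) (ι : Type) : Type
  | x (y : Fin M)
  | s (i : Fin K)
  | z (h : Fin m)
  | t (j : Fin K)
  | c (i : ι)
  | e (h : Fin m)
  | f (j : Fin K)

/-- The type of special points. -/
abbrev B (K m : ℕ) (ι : Type) : Type := Fin K ⊕ Fin m ⊕ Fin K ⊕ ι ⊕ Fin m ⊕ Fin K

/-- The ground set is the disjoint union of the generic and of the special points. -/
def V.equiv (M K m : ℕ) (ι : Type) : V M K m ι ≃ Fin M ⊕ B K m ι where
  toFun v := match v with
    | .x y => Sum.inl y
    | .s i => Sum.inr (Sum.inl i)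
    | .z h => Sum.inr (Sum.inr (Sum.inl h))
    | .t j => Sum.inr (Sum.inr (Sum.inr (Sum.inl j)))
    | .c i => Sum.inr (Sum.inr (Sum.inr (Sum.inr (Sum.inl i))))
    | .e h => Sum.inr (Sum.inr (Sum.inr (Sum.inr (Sum.inr (Sum.inl h)))))
    | .f j => Sum.inr (Sum.inr (Sum.inr (Sum.inr (Sum.inr (Sum.inr j)))))
  invFun w := match w with
    | Sum.inl y => .x y
    | Sum.inr (Sum.inl i) => .s i
    | Sum.inr (Sum.inr (Sum.inl h)) => .z h
    | Sum.inr (Sum.inr (Sum.inr (Sum.inl j))) => .t j
    | Sum.inr (Sum.inr (Sum.inr (Sum.inr (Sum.inl i)))) => .c i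
    | Sum.inr (Sum.inr (Sum.inr (Sum.inr (Sum.inr (Sum.inl h))))) => .e h
    | Sum.inr (Sum.inr (Sum.inr (Sum.inr (Sum.inr (Sum.inr j))))) => .f j
  left_inv v := by cases v <;> rfl
  right_inv w := by
    rcases w with y | i | h | j | i | h | j <;> rfl

/-- The traces on the generic points that the sets of our families may have: a singleton, or an
initial segment followed by any subset of the next `k` points. -/
def npart (M k : ℕ) : Fin M ⊕ (Fin (M + 1) × Set (Fin k)) → Set (Fin M)
  | Sum.inl y => {y}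
  | Sum.inr (a, g) => {y | (y : ℕ) < a ∨ ∃ i ∈ g, (y : ℕ) = a + i}

/-- The trace of a set on the generic points. -/
def trace {M K m : ℕ} {ι : Type} (G : Set (V M K m ι)) : Set (Fin M) := {y | V.x y ∈ G}

/-- A set whose trace has one of the listed forms. -/
def IsListed {M K m : ℕ} {ι : Type} (k : ℕ) (G : Set (V M K m ι)) : Prop :=
  ∃ ν, trace G = npart M k ν

/-- A set with no pair `a + k ≤ b`, `x a ∉ G`, `x b ∈ G` has a listed trace. -/
theorem isListed_of_no_pair {M K m : ℕ} {ι : Type} (k : ℕ) (G : Set (V M K m ι))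
    (h : ∀ a b : Fin M, (a : ℕ) + k ≤ b → V.x a ∉ G → V.x b ∉ G) : IsListed k G := by
  classical
  by_cases hall : ∀ y : Fin M, V.x y ∈ G
  · refine ⟨Sum.inr (Fin.last M, ∅), ?_⟩
    ext y
    simp [trace, npart, hall y]
  · push Not at hall
    have hex : ∃ a : ℕ, ∃ ha : a < M, V.x (⟨a, ha⟩ : Fin M) ∉ G := by
      obtain ⟨y, hy⟩ := hall
      exact ⟨y, y.isLt, hy⟩
    obtain ⟨ha, haG⟩ := Nat.find_spec hex
    have hmin : ∀ y : Fin M, (y : ℕ) < Nat.find hex → V.x y ∈ G := by
      intro y hy
      by_contra hyG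
      exact Nat.find_min hex hy ⟨y.isLt, hyG⟩
    set a := Nat.find hex with hadef
    refine ⟨Sum.inr (⟨a, by omega⟩, {i | ∃ hi : a + (i : ℕ) < M, V.x (⟨a + i, hi⟩ : Fin M) ∈ G}), ?_⟩
    ext y
    simp only [trace, npart, Set.mem_ofPred_eq]
    constructor
    · intro hy
      by_cases hya : (y : ℕ) < a
      · exact Or.inl hya
      · right
        have hlt : (y : ℕ) < a + k := by
          by_contra hge
          push Not at hge
          exact h ⟨a, ha⟩ y hge haG hy
        refine ⟨⟨y - a, by omega⟩, ?_, ?_⟩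
        · have h1 : a + (y - a : ℕ) = y := by omega
          refine ⟨by simp only; omega, ?_⟩
          have h2 : (⟨a + (y - a : ℕ), by omega⟩ : Fin M) = y := Fin.ext h1
          simpa only [h2] using hy
        · simp only
          omega
    · rintro (hy | ⟨i, ⟨hi, hiG⟩, hy⟩)
      · exact hmin y hy
      · have h2 : (⟨a + (i : ℕ), hi⟩ : Fin M) = y := Fin.ext hy.symm
        rwa [h2] at hiG

/-- Parametrisation of the sets with a listed trace. -/
def param (M K m k : ℕ) (ι : Type) :
    Set (B K m ι) × (Fin M ⊕ (Fin (M + 1) × Set (Fin k))) → Set (V M K m ι) :=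
  fun d => {v | match V.equiv M K m ι v with
    | Sum.inl y => y ∈ npart M k d.2
    | Sum.inr β => β ∈ d.1}

theorem exists_param {M K m k : ℕ} {ι : Type} (G : Set (V M K m ι)) (hG : IsListed k G) :
    ∃ d, param M K m k ι d = G := by
  obtain ⟨ν, hν⟩ := hG
  refine ⟨({β | (V.equiv M K m ι).symm (Sum.inr β) ∈ G}, ν), ?_⟩
  ext v
  simp only [param, Set.mem_ofPred_eq]
  rcases hv : V.equiv M K m ι v with y | β
  · have : v = V.x y := by
      apply (V.equiv M K m ι).injective
      rw [hv]; rfl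
    simp only
    rw [← hν, this]
    rfl
  · simp only
    rw [← hv]
    simp

/-- The number of parameters. -/
theorem card_param (M K m k : ℕ) (ι : Type) [Fintype ι] :
    Nat.card (Set (B K m ι) × (Fin M ⊕ (Fin (M + 1) × Set (Fin k)))) =
      2 ^ Fintype.card (B K m ι) * (M + (M + 1) * 2 ^ k) := by
  classical
  simp [Nat.card_eq_fintype_card, Fintype.card_prod, Fintype.card_sum, Fintype.card_set]

end Pool.Agent.Lib.MP_2b57cc_co
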