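import Mathlib
import Pool.Agent.Lib.MP_2b57cc_co.Basic

set_option autoImplicit false

/-!
Helper file for MP_2b57cc_co: the families used in the construction and the rank argument which
shows that the part without the long chains contains no chain with `K + 2` elements.
-/

namespace Pool.Agent.Lib.MP_2b57cc_co

variable {M K m : ℕ} {ι : Type}

/-- Small sets of points `s`. -/
def KS (S : Finset (Fin K)) : Set (V M K m ι) := {v | match v with
  | .x _ => False | .s i => i ∈ S | .z _ => False | .t _ => False
  | .c _ => False | .e _ => False | .f _ => False}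

/-- Small sets with one generic point, the forced points of level `< j`, and points `s`. -/
def XS (y : Fin M) (j : ℕ) (S : Finset (Fin K)) : Set (V M K m ι) := {v | match v with
  | .x y' => y' = y | .s i => i ∈ S | .z _ => 0 < j | .t i => (i : ℕ) + 1 < j
  | .c _ => False | .e _ => False | .f _ => False}

/-- Large sets missing `z h` and points `s`. -/
def WZ (h : Fin m) (S : Finset (Fin K)) : Set (V M K m ι) := {v | match v with
  | .x _ => True | .s i => i ∉ S | .z h' => h' ≠ h | .t _ => True
  | .c _ => True | .e _ => True | .f _ => True}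

/-- Large sets missing `t j` and points `s`. -/
def WT (j : Fin K) (S : Finset (Fin K)) : Set (V M K m ι) := {v | match v with
  | .x _ => True | .s i => i ∉ S | .z _ => True | .t j' => j' ≠ j
  | .c _ => True | .e _ => True | .f _ => True}

/-- Small sets above all forced points, used as spare chains. -/
def QS (h : Fin m) (j : ℕ) : Set (V M K m ι) := {v | match v with
  | .x _ => False | .s _ => False | .z _ => True | .t _ => True
  | .c _ => False | .e h' => h' = h | .f i => (i : ℕ) < j}

/-- The long chains: all forced points, the point `c i`, and an initial segment of length `a`. -/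
def DS (i : ι) (a : ℕ) : Set (V M K m ι) := {v | match v with
  | .x y => (y : ℕ) < a | .s _ => False | .z _ => True | .t _ => True
  | .c i' => i' = i | .e _ => False | .f _ => False}

/-- `X` is one of the sets of the short family, with rank `ρ`. -/
def IsB (X : Set (V M K m ι)) (ρ : ℕ) : Prop :=
  (∃ S : Finset (Fin K), S.Nonempty ∧ X = KS S ∧ ρ = S.card) ∨
  (∃ (y : Fin M) (j : ℕ) (S : Finset (Fin K)), 1 ≤ j ∧ j ≤ K + 1 ∧ (∀ i ∈ S, (i : ℕ) + j < K) ∧
    X = XS y j S ∧ ρ = S.card + j) ∨
  (∃ (h : Fin m) (S : Finset (Fin K)), X = WZ h S ∧ ρ = K + 1 - S.card) ∨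
  (∃ (j : Fin K) (S : Finset (Fin K)), (∀ i ∈ S, (i : ℕ) + (j + 1) < K) ∧
    X = WT j S ∧ ρ = K + 1 - S.card) ∨
  (∃ (h : Fin m) (j : ℕ), j ≤ K ∧ X = QS h j ∧ ρ = j + 1)

theorem card_le (S : Finset (Fin K)) : S.card ≤ K := by
  have := Finset.card_le_univ S
  simpa using this

theorem card_filter_add_lt (l : ℕ) :
    (Finset.univ.filter (fun i : Fin K => (i : ℕ) + l < K)).card = K - l := by
  have h1 : (Finset.univ.filter (fun i : Fin K => (i : ℕ) + l < K)) =
      Finset.univ.filter (fun i : Fin K => (i : ℕ) < K - l) := by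
    ext i
    simp only [Finset.mem_filter, Finset.mem_univ, true_and]
    omega
  rw [h1]
  have h2 := Fin.card_filter_val_lt (n := K) (m := K - l)
  simp only [h2]
  omega

/-- Two disjoint sets of points of index `< K - l` have at most `K - l` elements together. -/
theorem card_add_le (S S' : Finset (Fin K)) (l : ℕ) (h : ∀ i ∈ S, (i : ℕ) + l < K)
    (h' : ∀ i ∈ S', (i : ℕ) + l < K) (hd : Disjoint S S') : S.card + S'.card ≤ K - l := by
  rw [← Finset.card_union_of_disjoint hd, ← card_filter_add_lt (K := K) l]
  apply Finset.card_le_card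
  intro i hi
  rw [Finset.mem_union] at hi
  simp only [Finset.mem_filter, Finset.mem_univ, true_and]
  rcases hi with hi | hi
  · exact h i hi
  · exact h' i hi

theorem isB_rank {X : Set (V M K m ι)} {ρ : ℕ} (h : IsB X ρ) : 1 ≤ ρ ∧ ρ ≤ K + 1 := by
  rcases h with ⟨S, hS, -, rfl⟩ | ⟨y, j, S, h1, h2, h3, -, rfl⟩ | ⟨h, S, -, rfl⟩ |
    ⟨j, S, -, -, rfl⟩ | ⟨h, j, hj, -, rfl⟩
  · exact ⟨hS.card_pos, (card_le S).trans (Nat.le_succ K)⟩
  · refine ⟨by omega, ?_⟩
    have := card_add_le S ∅ j h3 (by simp) (by simp)
    simp only [Finset.card_empty, add_zero] at this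
    omega
  · have := card_le S
    omega
  · have := card_le S
    omega
  · omega

theorem card_lt_of_ssub {S S' : Finset (Fin K)} (h : S ⊆ S') (hne : S ≠ S') :
    S.card < S'.card := Finset.card_lt_card (lt_of_le_of_ne h hne)

/-- The rank is strictly increasing along strict inclusions in the short family. -/
theorem isB_lt [Nonempty (Fin M)] [Nonempty (Fin m)] {X Y : Set (V M K m ι)} {ρ ρ' : ℕ}
    (hX : IsB X ρ) (hY : IsB Y ρ') (hXY : X ⊂ Y) : ρ < ρ' := by
  obtain ⟨y0⟩ := ‹Nonempty (Fin M)›
  obtain ⟨h0⟩ := ‹Nonempty (Fin m)›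
  have hsub := hXY.1
  have hne : X ≠ Y := hXY.ne
  rcases hX with ⟨S, hS, rfl, rfl⟩ | ⟨y, j, S, h1, h2, h3, rfl, rfl⟩ | ⟨h, S, rfl, rfl⟩ |
    ⟨j, S, h3, rfl, rfl⟩ | ⟨h, j, hj, rfl, rfl⟩
  · -- KS
    rcases hY with ⟨S', hS', rfl, rfl⟩ | ⟨y', j', S', h1', h2', h3', rfl, rfl⟩ |
      ⟨h', S', rfl, rfl⟩ | ⟨j', S', h3', rfl, rfl⟩ | ⟨h', j', hj', rfl, rfl⟩
    · have : S ⊆ S' := fun i hi => hsub (a := V.s i) hi
      exact card_lt_of_ssub this (fun h => hne (by rw [h]))
    · have : S ⊆ S' := fun i hi => hsub (a := V.s i) hi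
      have := Finset.card_le_card this
      omega
    · have hd : Disjoint S S' := by
        rw [Finset.disjoint_left]
        intro i hi
        exact hsub (a := V.s i) hi
      have := card_add_le S S' 0 (fun i _ => by omega) (fun i _ => by omega) hd
      have := card_le S'
      omega
    · have hd : Disjoint S S' := by
        rw [Finset.disjoint_left]
        intro i hi
        exact hsub (a := V.s i) hi
      have := card_add_le S S' 0 (fun i _ => by omega) (fun i _ => by omega) hd
      have := card_le S'
      omega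
    · obtain ⟨i, hi⟩ := hS
      exact (hsub (a := V.s i) hi).elim
  · -- XS
    rcases hY with ⟨S', hS', rfl, rfl⟩ | ⟨y', j', S', h1', h2', h3', rfl, rfl⟩ |
      ⟨h', S', rfl, rfl⟩ | ⟨j', S', h3', rfl, rfl⟩ | ⟨h', j', hj', rfl, rfl⟩
    · exact (hsub (a := V.x y) rfl).elim
    · have hy : y = y' := hsub (a := V.x y) rfl
      have hSS : S ⊆ S' := fun i hi => hsub (a := V.s i) hi
      have hjj : j ≤ j' := by
        by_cases hj2 : 2 ≤ j
        · have := hsub (a := V.t ⟨j - 2, by omega⟩) (show (j - 2) + 1 < j by omega)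
          have : (j - 2) + 1 < j' := this
          omega
        · omega
      by_cases hS2 : S = S'
      · have : j ≠ j' := by
          rintro rfl
          exact hne (by rw [hy, hS2])
        rw [hS2]
        omega
      · have := card_lt_of_ssub hSS hS2
        omega
    · exact absurd rfl (hsub (a := V.z h') (show 0 < j by omega))
    · have hjj : j ≤ (j' : ℕ) + 1 := by
        by_contra hlt
        exact absurd rfl (hsub (a := V.t j') (show (j' : ℕ) + 1 < j by omega))
      have hd : Disjoint S S' := by
        rw [Finset.disjoint_left]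
        intro i hi
        exact hsub (a := V.s i) hi
      have h4 := card_add_le S S' j h3 (fun i hi => by have := h3' i hi; omega) hd
      have h5 := card_le S'
      have h6 := j'.isLt
      omega
    · exact (hsub (a := V.x y) rfl).elim
  · -- WZ
    rcases hY with ⟨S', hS', rfl, rfl⟩ | ⟨y', j', S', h1', h2', h3', rfl, rfl⟩ |
      ⟨h', S', rfl, rfl⟩ | ⟨j', S', h3', rfl, rfl⟩ | ⟨h', j', hj', rfl, rfl⟩
    · exact (hsub (a := V.e h0) trivial).elim
    · exact (hsub (a := V.e h0) trivial).elim
    · have hh : h = h' := by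
        by_contra hh
        exact absurd rfl (hsub (a := V.z h') (show h' ≠ h from fun e => hh e.symm))
      have hSS : S' ⊆ S := by
        intro i hi
        by_contra hiS
        exact (hsub (a := V.s i) hiS) hi
      have : S'.card < S.card := card_lt_of_ssub hSS (fun e => hne (by rw [hh, e]))
      have := card_le S
      omega
    · exact absurd rfl (hsub (a := V.t j') trivial)
    · exact (hsub (a := V.x y0) trivial).elim
  · -- WT
    rcases hY with ⟨S', hS', rfl, rfl⟩ | ⟨y', j', S', h1', h2', h3', rfl, rfl⟩ |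
      ⟨h', S', rfl, rfl⟩ | ⟨j', S', h3', rfl, rfl⟩ | ⟨h', j', hj', rfl, rfl⟩
    · exact (hsub (a := V.e h0) trivial).elim
    · exact (hsub (a := V.e h0) trivial).elim
    · exact absurd rfl (hsub (a := V.z h') trivial)
    · have hh : j = j' := by
        by_contra hh
        exact absurd rfl (hsub (a := V.t j') (show j' ≠ j from fun e => hh e.symm))
      have hSS : S' ⊆ S := by
        intro i hi
        by_contra hiS
        exact (hsub (a := V.s i) hiS) hi
      have : S'.card < S.card := card_lt_of_ssub hSS (fun e => hne (by rw [hh, e]))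
      have := card_le S
      omega
    · exact (hsub (a := V.x y0) trivial).elim
  · -- QS
    rcases hY with ⟨S', hS', rfl, rfl⟩ | ⟨y', j', S', h1', h2', h3', rfl, rfl⟩ |
      ⟨h', S', rfl, rfl⟩ | ⟨j', S', h3', rfl, rfl⟩ | ⟨h', j', hj', rfl, rfl⟩
    · exact (hsub (a := V.e h) rfl).elim
    · exact (hsub (a := V.e h) rfl).elim
    · exact absurd rfl (hsub (a := V.z h') trivial)
    · exact absurd rfl (hsub (a := V.t j') trivial)
    · have hh : h = h' := hsub (a := V.e h) rfl
      have hjj : j ≤ j' := by
        by_cases hj1 : 1 ≤ j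
        · have : j - 1 < j' := hsub (a := V.f ⟨j - 1, by omega⟩) (show j - 1 < j by omega)
          omega
        · omega
      have : j ≠ j' := by
        rintro rfl
        exact hne (by rw [hh])
      omega

/-- The short family contains no chain with `K + 2` elements. -/
theorem no_long_chain [Nonempty (Fin M)] [Nonempty (Fin m)] (u : Fin (K + 2) → Set (V M K m ι))
    (hu : StrictMono u) : ∃ q, ∀ ρ, ¬ IsB (u q) ρ := by
  by_contra hno
  push Not at hno
  choose ρ hρ using hno
  have hmono : StrictMono ρ := fun a b hab => isB_lt (hρ a) (hρ b) (hu hab)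
  have hge : ∀ q : ℕ, ∀ hq : q < K + 2, q + 1 ≤ ρ ⟨q, hq⟩ := by
    intro q
    induction q with
    | zero => intro hq; exact (isB_rank (hρ _)).1
    | succ q ih =>
      intro hq
      have h1 := ih (by omega)
      have h2 : ρ ⟨q, by omega⟩ < ρ ⟨q + 1, hq⟩ := hmono (by simp [Fin.lt_def])
      omega
  have h1 := hge (K + 1) (by omega)
  have h2 := (isB_rank (hρ ⟨K + 1, by omega⟩)).2
  omega

end Pool.Agent.Lib.MP_2b57cc_co
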