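import Mathlib
import Pool.Agent.Lib.MP_2b57cc_co.Families

set_option autoImplicit false

/-!
Helper file for MP_2b57cc_co: the base family contains no copy of the disjoint union of chains,
and every set with a pair `a + (K + 2) ≤ b`, `x a ∉ G`, `x b ∈ G` completes one.
-/

namespace Pool.Agent.Lib.MP_2b57cc_co

variable {M K m : ℕ} {ι : Type}

/-- The base family. -/
def F0 (M K m : ℕ) (ι : Type) : Set (Set (V M K m ι)) :=
  {X | (∃ i a, a ≤ M ∧ X = DS i a) ∨ ∃ ρ, IsB X ρ}

theorem DS_mono (i : ι) {a a' : ℕ} (h : a ≤ a') :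
    (DS i a : Set (V M K m ι)) ⊆ DS i a' := by
  intro v hv
  cases v with
  | x y => exact lt_of_lt_of_le (show (y : ℕ) < a from hv) h
  | s _ => exact hv
  | z _ => exact hv
  | t _ => exact hv
  | c _ => exact hv
  | e _ => exact hv
  | f _ => exact hv

/-- Chains of length `k` meeting the union of fewer than `r` chains: no copy. -/
theorem free_aux {m' k : ℕ} {i : Fin m' → ℕ} {j0 : Fin m'} (hj0 : i j0 = k)
    (F : Set (Set (V M K m {j : Fin m' // i j = k ∧ j ≠ j0})))
    (hF : ∀ u : Fin k → Set (V M K m {j : Fin m' // i j = k ∧ j ≠ j0}), StrictMono u →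
      (∀ q, u q ∈ F) → ∃ q, ∃ c a, u q = DS c a) :
    ¬ Copy (Σ j, Fin (i j)) (Set (V M K m {j : Fin m' // i j = k ∧ j ≠ j0})) F := by
  classical
  rintro ⟨b, hb, hbb⟩
  have hsm : ∀ j : {j : Fin m' // i j = k}, ∃ q : Fin (i j.1), ∃ c a,
      b ⟨j.1, q⟩ = DS c a := by
    rintro ⟨j, hj⟩
    have hmono : StrictMono (fun q : Fin k => b ⟨j, Fin.cast hj.symm q⟩) := by
      intro q q' hqq
      have h1 : (⟨j, Fin.cast hj.symm q⟩ : Σ j, Fin (i j)) ≤ ⟨j, Fin.cast hj.symm q'⟩ := by
        rw [Sigma.mk_le_mk_iff]
        exact hqq.le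
      have h2 : ¬ (⟨j, Fin.cast hj.symm q'⟩ : Σ j, Fin (i j)) ≤ ⟨j, Fin.cast hj.symm q⟩ := by
        rw [Sigma.mk_le_mk_iff]
        exact not_le.mpr hqq
      exact lt_of_le_not_ge ((hbb _ _).mp h1) (fun h => h2 ((hbb _ _).mpr h))
    obtain ⟨q, c, a, hq⟩ := hF _ hmono (fun q => hb _)
    exact ⟨Fin.cast hj.symm q, c, a, hq⟩
  choose q c a hq using hsm
  have hcard : Fintype.card {j : Fin m' // i j = k ∧ j ≠ j0} <
      Fintype.card {j : Fin m' // i j = k} := by
    refine Fintype.card_lt_of_injective_of_notMem
      (fun j : {j : Fin m' // i j = k ∧ j ≠ j0} => (⟨j.1, j.2.1⟩ : {j : Fin m' // i j = k}))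
      ?_ (b := ⟨j0, hj0⟩) ?_
    · intro j j' hjj
      simp only [Subtype.mk.injEq] at hjj
      exact Subtype.ext hjj
    · rintro ⟨j, hj⟩
      simp only [Subtype.mk.injEq] at hj
      exact j.2.2 hj
  obtain ⟨j, j', hne, hjj⟩ := Fintype.exists_ne_map_eq_of_card_lt c hcard
  rcases le_total (a j) (a j') with h | h
  · have h1 : b ⟨j.1, q j⟩ ≤ b ⟨j'.1, q j'⟩ := by
      rw [hq j, hq j', hjj]
      exact DS_mono _ h
    obtain ⟨h2, -⟩ := Sigma.le_def.mp ((hbb _ _).mpr h1)
    exact hne (Subtype.ext h2)
  · have h1 : b ⟨j'.1, q j'⟩ ≤ b ⟨j.1, q j⟩ := by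
      rw [hq j, hq j', hjj]
      exact DS_mono _ h
    obtain ⟨h2, -⟩ := Sigma.le_def.mp ((hbb _ _).mpr h1)
    exact hne (Subtype.ext h2.symm)

/-- A chain of subsets of `S` with one set of each size. -/
theorem nested (S : Finset (Fin K)) : ∃ g : ℕ → Finset (Fin K),
    (∀ i, i ≤ S.card → g i ⊆ S ∧ (g i).card = i) ∧ ∀ i j, i ≤ j → g i ⊆ g j := by
  classical
  induction S using Finset.induction_on with
  | empty =>
    refine ⟨fun _ => ∅, ?_, fun _ _ _ => subset_rfl⟩
    intro i hi
    simp only [Finset.card_empty, nonpos_iff_eq_zero] at hi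
    subst hi
    simp
  | insert a S ha ih =>
    obtain ⟨g, hg, hm⟩ := ih
    refine ⟨fun i => if i ≤ S.card then g i else insert a S, ?_, ?_⟩
    · intro i hi
      rw [Finset.card_insert_of_notMem ha] at hi
      by_cases h : i ≤ S.card
      · simp only [h, if_true]
        exact ⟨(hg i h).1.trans (Finset.subset_insert _ _), (hg i h).2⟩
      · simp only [h, if_false]
        refine ⟨subset_rfl, ?_⟩
        rw [Finset.card_insert_of_notMem ha]
        omega
    · intro i j hij
      by_cases h : i ≤ S.card
      · by_cases h' : j ≤ S.card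
        · simp only [h, h', if_true]
          exact hm i j hij
        · simp only [h, h', if_true, if_false]
          exact (hg i h).1.trans (Finset.subset_insert _ _)
      · have h' : ¬ j ≤ S.card := by omega
        simp only [h, h', if_false]
        exact subset_rfl

theorem concat {X : Type} [Preorder X] (p1 p2 : ℕ) (lo hi : ℕ → X) (G : X)
    (hlo : ∀ q q', q < q' → q' < p1 → lo q < lo q') (hloG : ∀ q, q < p1 → lo q < G)
    (hhi : ∀ q q', q < q' → q' < p2 → hi q < hi q') (hGhi : ∀ q, q < p2 → G < hi q)
    (q q' : ℕ) (hq : q < q') (hq' : q' < p1 + 1 + p2) :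
    (if q < p1 then lo q else if q = p1 then G else hi (q - p1 - 1)) <
    (if q' < p1 then lo q' else if q' = p1 then G else hi (q' - p1 - 1)) := by
  by_cases h1 : q < p1
  · by_cases h1' : q' < p1
    · simp only [h1, h1', if_true]
      exact hlo q q' hq h1'
    · by_cases h2' : q' = p1
      · simp only [h1, h1', h2', if_true, if_false, lt_irrefl]
        exact hloG q h1
      · simp only [h1, h1', h2', if_true, if_false]
        exact (hloG q h1).trans (hGhi _ (by omega))
  · have h1' : ¬ q' < p1 := by omega
    have h2' : ¬ q' = p1 := by omega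
    by_cases h2 : q = p1
    · simp only [h1, h1', h2, h2', if_true, if_false, lt_irrefl]
      exact hGhi _ (by omega)
    · simp only [h1, h1', h2, h2', if_false]
      exact hhi _ _ (by omega) (by omega)

theorem ssub_of {X Y : Set (V M K m ι)} (h : X ⊆ Y) (hne : X ≠ Y) : X < Y :=
  lt_of_le_of_ne h hne

theorem KS_lt {S S' : Finset (Fin K)} (h : S ⊆ S') (hc : S.card < S'.card) :
    (KS S : Set (V M K m ι)) < KS S' := by
  refine ssub_of ?_ ?_
  · intro v hv
    cases v <;> first | exact hv | exact h hv
  · intro he
    have : S' ⊆ S := by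
      intro i hi
      have h1 : (V.s i : V M K m ι) ∈ KS S' := hi
      rw [← he] at h1
      exact h1
    have := Finset.card_le_card this
    omega

theorem XS_lt {y : Fin M} {j j' : ℕ} {S S' : Finset (Fin K)} (hj1 : 1 ≤ j) (hj : j ≤ j')
    (hj' : j' ≤ K + 1) (h : S ⊆ S') (hc : S.card + j < S'.card + j') :
    (XS y j S : Set (V M K m ι)) < XS y j' S' := by
  refine ssub_of ?_ ?_
  · intro v hv
    cases v with
    | x y' => exact hv
    | s i => exact h hv
    | z h' => exact lt_of_lt_of_le hj1 hj
    | t i => exact lt_of_lt_of_le (show (i : ℕ) + 1 < j from hv) hj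
    | c _ => exact hv
    | e _ => exact hv
    | f _ => exact hv
  · intro he
    have h1 : S' ⊆ S := by
      intro i hi
      have h1 : (V.s i : V M K m ι) ∈ XS y j' S' := hi
      rw [← he] at h1
      exact h1
    have h2 := Finset.card_le_card h1
    have h3 : j < j' := by omega
    have h4 : (V.t ⟨j' - 2, by omega⟩ : V M K m ι) ∈ XS y j' S' :=
      show (j' - 2) + 1 < j' by omega
    rw [← he] at h4
    have h5 : (j' - 2) + 1 < j := h4
    omega

theorem WZ_lt {h : Fin m} {S S' : Finset (Fin K)} (hs : S ⊆ S') (hc : S.card < S'.card) :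
    (WZ h S' : Set (V M K m ι)) < WZ h S := by
  refine ssub_of ?_ ?_
  · intro v hv
    cases v with
    | x y' => exact hv
    | s i => exact fun hi => hv (hs hi)
    | z h' => exact hv
    | t i => exact hv
    | c _ => exact hv
    | e _ => exact hv
    | f _ => exact hv
  · intro he
    have : S' ⊆ S := by
      intro i hi
      by_contra hno
      have h1 : (V.s i : V M K m ι) ∈ WZ h S := hno
      rw [← he] at h1
      exact h1 hi
    have := Finset.card_le_card this
    omega

theorem WT_lt {j : Fin K} {S S' : Finset (Fin K)} (hs : S ⊆ S') (hc : S.card < S'.card) :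
    (WT j S' : Set (V M K m ι)) < WT j S := by
  refine ssub_of ?_ ?_
  · intro v hv
    cases v with
    | x y' => exact hv
    | s i => exact fun hi => hv (hs hi)
    | z h' => exact hv
    | t i => exact hv
    | c _ => exact hv
    | e _ => exact hv
    | f _ => exact hv
  · intro he
    have : S' ⊆ S := by
      intro i hi
      by_contra hno
      have h1 : (V.s i : V M K m ι) ∈ WT j S := hno
      rw [← he] at h1
      exact h1 hi
    have := Finset.card_le_card this
    omega

theorem QS_lt {h : Fin m} {j j' : ℕ} (hj : j < j') (hj' : j' ≤ K) :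
    (QS h j : Set (V M K m ι)) < QS h j' := by
  refine ssub_of ?_ ?_
  · intro v hv
    cases v with
    | x y' => exact hv
    | s i => exact hv
    | z h' => exact hv
    | t i => exact hv
    | c _ => exact hv
    | e _ => exact hv
    | f i => exact lt_trans (show (i : ℕ) < j from hv) hj
  · intro he
    have h4 : (V.f ⟨j' - 1, by omega⟩ : V M K m ι) ∈ QS h j' := show j' - 1 < j' by omega
    rw [← he] at h4
    have h5 : j' - 1 < j := h4
    omega

theorem DS_lt {i : ι} {a a' : ℕ} (h : a < a') (ha' : a' ≤ M) :
    (DS i a : Set (V M K m ι)) < DS i a' := by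
  refine ssub_of (DS_mono i h.le) ?_
  intro he
  have h4 : (V.x ⟨a' - 1, by omega⟩ : V M K m ι) ∈ DS i a' := show a' - 1 < a' by omega
  rw [← he] at h4
  have h5 : a' - 1 < a := h4
  omega

/-- A chain of length `K + 2` through `G` when some forced point `τ` is missing from `G`. -/
theorem chain_missing (G : Set (V M K m ι)) (hG : G ∉ F0 M K m ι) (b : Fin M)
    (hb : V.x b ∈ G) (hmiss : (∃ h, V.z h ∉ G) ∨ ∃ j, V.t j ∉ G) :
    ∃ (γ : ℕ → Set (V M K m ι)) (τ : V M K m ι),
      ((∃ h, τ = V.z h) ∨ ∃ j, τ = V.t j) ∧
      (∀ q, q < K + 2 → γ q ∈ insert G (F0 M K m ι)) ∧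
      (∀ q q', q < q' → q' < K + 2 → γ q < γ q') ∧
      (∀ q, q < K + 2 → τ ∉ γ q) ∧
      (∀ q, q < K + 2 → V.x b ∈ γ q ∨ ∃ i, V.s i ∈ γ q) := by
  classical
  by_cases hz : ∃ h, V.z h ∉ G
  · -- level 0
    obtain ⟨h, hh⟩ := hz
    set S : Finset (Fin K) := Finset.univ.filter (fun i => V.s i ∈ G) with hS
    set S' : Finset (Fin K) := Finset.univ.filter (fun i => V.s i ∉ G) with hS'
    have hcard : S.card + S'.card = K := by
      rw [hS, hS', Finset.card_filter_add_card_filter_not]
      simp
    obtain ⟨g, hg, hgm⟩ := nested S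
    obtain ⟨g', hg', hgm'⟩ := nested S'
    have hloF : ∀ q, q < S.card → (KS (g (q + 1)) : Set (V M K m ι)) ∈ F0 M K m ι := by
      intro q hq
      refine Or.inr ⟨_, Or.inl ⟨g (q + 1), ?_, rfl, rfl⟩⟩
      rw [← Finset.card_pos, (hg (q + 1) (by omega)).2]
      omega
    have hhiF : ∀ q, (WZ h (g' q) : Set (V M K m ι)) ∈ F0 M K m ι :=
      fun q => Or.inr ⟨_, Or.inr (Or.inr (Or.inl ⟨h, g' q, rfl, rfl⟩))⟩
    have hloG : ∀ q, q < S.card → (KS (g (q + 1)) : Set (V M K m ι)) < G := by
      intro q hq
      refine ssub_of ?_ (fun he => hG (he ▸ hloF q hq))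
      intro v hv
      cases v with
      | s i =>
        have : i ∈ S := (hg (q + 1) (by omega)).1 hv
        rw [hS, Finset.mem_filter] at this
        exact this.2
      | x _ => exact hv.elim
      | z _ => exact hv.elim
      | t _ => exact hv.elim
      | c _ => exact hv.elim
      | e _ => exact hv.elim
      | f _ => exact hv.elim
    have hGhi : ∀ q, q ≤ S'.card → G < (WZ h (g' q) : Set (V M K m ι)) := by
      intro q hq
      refine ssub_of ?_ (fun he => hG (he ▸ hhiF q))
      intro v hv
      cases v with
      | s i =>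
        intro hi
        have : i ∈ S' := (hg' q hq).1 hi
        rw [hS', Finset.mem_filter] at this
        exact this.2 hv
      | z h' => rintro rfl; exact hh hv
      | x _ => trivial
      | t _ => trivial
      | c _ => trivial
      | e _ => trivial
      | f _ => trivial
    refine ⟨fun q => if q < S.card then KS (g (q + 1)) else if q = S.card then G
      else WZ h (g' (S'.card - (q - S.card - 1))), V.z h, Or.inl ⟨h, rfl⟩, ?_, ?_, ?_, ?_⟩
    · intro q hq
      by_cases h1 : q < S.card
      · simp only [h1, if_true]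
        exact Or.inr (hloF q h1)
      · by_cases h2 : q = S.card
        · simp only [h2, lt_irrefl, if_true, if_false]
          exact Or.inl rfl
        · simp only [h1, h2, if_false]
          exact Or.inr (hhiF _)
    · intro q q' hq hq'
      refine concat S.card (S'.card + 1) (fun q => KS (g (q + 1)))
        (fun q => WZ h (g' (S'.card - q))) G ?_ hloG ?_ ?_ q q' hq (by omega)
      · intro q q' hq hq'
        refine KS_lt (hgm _ _ (by omega)) ?_
        rw [(hg (q + 1) (by omega)).2, (hg (q' + 1) (by omega)).2]
        omega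
      · intro q q' hq hq'
        refine WZ_lt (hgm' _ _ (by omega)) ?_
        rw [(hg' (S'.card - q) (by omega)).2, (hg' (S'.card - q') (by omega)).2]
        omega
      · intro q hq
        exact hGhi _ (by omega)
    · intro q hq
      by_cases h1 : q < S.card
      · simp only [h1, if_true]
        exact fun h => h
      · by_cases h2 : q = S.card
        · simp only [h2, lt_irrefl, if_true, if_false]
          exact hh
        · simp only [h1, h2, if_false]
          exact fun h => h rfl
    · intro q hq
      by_cases h1 : q < S.card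
      · simp only [h1, if_true]
        right
        have h3 : (g (q + 1)).Nonempty := by
          rw [← Finset.card_pos, (hg (q + 1) (by omega)).2]
          omega
        obtain ⟨i, hi⟩ := h3
        exact ⟨i, hi⟩
      · left
        by_cases h2 : q = S.card
        · simp only [h2, lt_irrefl, if_true, if_false]
          exact hb
        · simp only [h1, h2, if_false]
          trivial
  · -- higher level
    push Not at hz
    have hex : ∃ j : ℕ, ∃ hj : j < K, V.t ⟨j, hj⟩ ∉ G := by
      rcases hmiss with ⟨h, hh⟩ | ⟨j, hj⟩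
      · exact absurd (hz h) hh
      · exact ⟨j, j.isLt, hj⟩
    obtain ⟨hjK, hjG⟩ := Nat.find_spec hex
    have hmin : ∀ i : Fin K, (i : ℕ) < Nat.find hex → V.t i ∈ G := by
      intro i hi
      by_contra hiG
      exact Nat.find_min hex hi ⟨i.isLt, hiG⟩
    set j := Nat.find hex with hjdef
    set S : Finset (Fin K) := (Finset.univ.filter (fun i : Fin K => (i : ℕ) + (j + 1) < K)).filter
      (fun i => V.s i ∈ G) with hS
    set S' : Finset (Fin K) := (Finset.univ.filter (fun i : Fin K => (i : ℕ) + (j + 1) < K)).filter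
      (fun i => V.s i ∉ G) with hS'
    have hcard : S.card + S'.card = K - (j + 1) := by
      rw [hS, hS', Finset.card_filter_add_card_filter_not]
      exact card_filter_add_lt (j + 1)
    have hSlt : ∀ i ∈ S, (i : ℕ) + (j + 1) < K := by
      intro i hi
      rw [hS, Finset.mem_filter, Finset.mem_filter] at hi
      exact hi.1.2
    have hSlt' : ∀ i ∈ S', (i : ℕ) + (j + 1) < K := by
      intro i hi
      rw [hS', Finset.mem_filter, Finset.mem_filter] at hi
      exact hi.1.2
    obtain ⟨g, hg, hgm⟩ := nested S
    obtain ⟨g', hg', hgm'⟩ := nested S'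
    have hp : ∀ q, q < j + 1 + S.card → q - j ≤ S.card := fun q hq => by omega
    have hloF : ∀ q, q < j + 1 + S.card →
        (XS b (min (q + 1) (j + 1)) (g (q - j)) : Set (V M K m ι)) ∈ F0 M K m ι := by
      intro q hq
      refine Or.inr ⟨_, Or.inr (Or.inl ⟨b, min (q + 1) (j + 1), g (q - j), by omega, by omega,
        ?_, rfl, rfl⟩)⟩
      intro i hi
      have := hSlt i ((hg _ (hp q hq)).1 hi)
      omega
    have hhiF : ∀ q, q ≤ S'.card →
        (WT ⟨j, hjK⟩ (g' q) : Set (V M K m ι)) ∈ F0 M K m ι := by
      intro q hq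
      refine Or.inr ⟨_, Or.inr (Or.inr (Or.inr (Or.inl ⟨⟨j, hjK⟩, g' q, ?_, rfl, rfl⟩)))⟩
      intro i hi
      exact hSlt' i ((hg' _ hq).1 hi)
    have hloG : ∀ q, q < j + 1 + S.card →
        (XS b (min (q + 1) (j + 1)) (g (q - j)) : Set (V M K m ι)) < G := by
      intro q hq
      refine ssub_of ?_ (fun he => hG (he ▸ hloF q hq))
      intro v hv
      cases v with
      | x y =>
        have : y = b := hv
        rw [this]
        exact hb
      | s i =>
        have : i ∈ S := (hg _ (hp q hq)).1 hv
        rw [hS, Finset.mem_filter] at this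
        exact this.2
      | z h => exact hz h
      | t i =>
        have : (i : ℕ) + 1 < min (q + 1) (j + 1) := hv
        exact hmin i (by omega)
      | c _ => exact hv.elim
      | e _ => exact hv.elim
      | f _ => exact hv.elim
    have hGhi : ∀ q, q ≤ S'.card → G < (WT ⟨j, hjK⟩ (g' q) : Set (V M K m ι)) := by
      intro q hq
      refine ssub_of ?_ (fun he => hG (he ▸ hhiF q hq))
      intro v hv
      cases v with
      | s i =>
        intro hi
        have : i ∈ S' := (hg' q hq).1 hi
        rw [hS', Finset.mem_filter] at this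
        exact this.2 hv
      | t h' => rintro rfl; exact hjG hv
      | x _ => trivial
      | z _ => trivial
      | c _ => trivial
      | e _ => trivial
      | f _ => trivial
    refine ⟨fun q => if q < j + 1 + S.card then XS b (min (q + 1) (j + 1)) (g (q - j))
      else if q = j + 1 + S.card then G
      else WT ⟨j, hjK⟩ (g' (S'.card - (q - (j + 1 + S.card) - 1))), V.t ⟨j, hjK⟩,
      Or.inr ⟨_, rfl⟩, ?_, ?_, ?_, ?_⟩
    · intro q hq
      by_cases h1 : q < j + 1 + S.card
      · simp only [h1, if_true]
        exact Or.inr (hloF q h1)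
      · by_cases h2 : q = j + 1 + S.card
        · simp only [h2, lt_irrefl, if_true, if_false]
          exact Or.inl rfl
        · simp only [h1, h2, if_false]
          exact Or.inr (hhiF _ (by omega))
    · intro q q' hq hq'
      refine concat (j + 1 + S.card) (S'.card + 1)
        (fun q => XS b (min (q + 1) (j + 1)) (g (q - j)))
        (fun q => WT ⟨j, hjK⟩ (g' (S'.card - q))) G ?_ hloG ?_ ?_ q q' hq (by omega)
      · intro q q' hq hq'
        refine XS_lt (by omega) (by omega) (by omega) (hgm _ _ (by omega)) ?_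
        rw [(hg (q - j) (by omega)).2, (hg (q' - j) (by omega)).2]
        omega
      · intro q q' hq hq'
        refine WT_lt (hgm' _ _ (by omega)) ?_
        rw [(hg' (S'.card - q) (by omega)).2, (hg' (S'.card - q') (by omega)).2]
        omega
      · intro q hq
        exact hGhi _ (by omega)
    · intro q hq
      by_cases h1 : q < j + 1 + S.card
      · simp only [h1, if_true]
        intro h
        have h3 : j + 1 < min (q + 1) (j + 1) := h
        omega
      · by_cases h2 : q = j + 1 + S.card
        · simp only [h2, lt_irrefl, if_true, if_false]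
          exact hjG
        · simp only [h1, h2, if_false]
          exact fun h => h rfl
    · intro q hq
      left
      by_cases h1 : q < j + 1 + S.card
      · simp only [h1, if_true]
        rfl
      · by_cases h2 : q = j + 1 + S.card
        · simp only [h2, lt_irrefl, if_true, if_false]
          exact hb
        · simp only [h1, h2, if_false]
          trivial

end Pool.Agent.Lib.MP_2b57cc_co
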