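import Mathlib
import Pool.Agent.Lib.MP_2b57cc_co.Create

set_option autoImplicit false

/-!
Helper file for MP_2b57cc_co: completion of copies, and the linear bound on the ground set `V`.
-/

namespace Pool.Agent.Lib.MP_2b57cc_co

/-- Assembling a copy of the union of chains from one chain `γ`, the chains `D` and the spare
chains `Q`. -/
theorem assemble {X : Type} [PartialOrder X] {m : ℕ} (i : Fin m → ℕ) (j0 : Fin m) (k : ℕ)
    (hle : ∀ j, i j ≤ k) (F : Set X) (γ : ℕ → X) (D : {j : Fin m // i j = k ∧ j ≠ j0} → ℕ → X)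
    (Q : Fin m → ℕ → X)
    (hγF : ∀ q, q < k → γ q ∈ F) (hDF : ∀ c q, q < k → D c q ∈ F)
    (hQF : ∀ j q, q + 1 < k → Q j q ∈ F)
    (hγm : ∀ q q', q < q' → q' < k → γ q < γ q')
    (hDm : ∀ c q q', q < q' → q' < k → D c q < D c q')
    (hQm : ∀ j q q', q < q' → q' + 1 < k → Q j q < Q j q')
    (hγD : ∀ q c q', q < k → q' < k → ¬ γ q ≤ D c q')
    (hDγ : ∀ q c q', q < k → q' < k → ¬ D c q ≤ γ q')
    (hγQ : ∀ q j q', q < k → q' + 1 < k → ¬ γ q ≤ Q j q')
    (hQγ : ∀ q j q', q + 1 < k → q' < k → ¬ Q j q ≤ γ q')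
    (hDD : ∀ c c' q q', c ≠ c' → q < k → q' < k → ¬ D c q ≤ D c' q')
    (hDQ : ∀ c j q q', q < k → q' + 1 < k → ¬ D c q ≤ Q j q')
    (hQD : ∀ j c q q', q + 1 < k → q' < k → ¬ Q j q ≤ D c q')
    (hQQ : ∀ j j' q q', j ≠ j' → q + 1 < k → q' + 1 < k → ¬ Q j q ≤ Q j' q') :
    Copy (Σ j, Fin (i j)) X F := by
  classical
  set u : Fin m → ℕ → X := fun j =>
    if hj : i j = k ∧ j ≠ j0 then D ⟨j, hj⟩ else if j = j0 then γ else Q j with hu
  have hcase : ∀ j, (∃ hj : i j = k ∧ j ≠ j0, u j = D ⟨j, hj⟩) ∨ (j = j0 ∧ u j = γ) ∨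
      (i j + 1 ≤ k ∧ u j = Q j) := by
    intro j
    by_cases hj : i j = k ∧ j ≠ j0
    · left
      exact ⟨hj, by rw [hu]; simp only [dif_pos hj]⟩
    · right
      by_cases hj2 : j = j0
      · left
        exact ⟨hj2, by rw [hu]; simp only [dif_neg hj, if_pos hj2]⟩
      · right
        have h1 : i j ≠ k := fun h => hj ⟨h, hj2⟩
        have h2 := hle j
        exact ⟨by omega, by rw [hu]; simp only [dif_neg hj, if_neg hj2]⟩
  refine copy_of_chains i F u ?_ ?_ ?_
  · intro j q hq
    have hq2 := lt_of_lt_of_le hq (hle j)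
    rcases hcase j with ⟨hj, h⟩ | ⟨hj, h⟩ | ⟨hj, h⟩ <;> rw [h]
    · exact hDF _ q hq2
    · exact hγF q hq2
    · exact hQF j q (by omega)
  · intro j q q' hqq hq
    have hq2 := lt_of_lt_of_le hq (hle j)
    rcases hcase j with ⟨hj, h⟩ | ⟨hj, h⟩ | ⟨hj, h⟩ <;> rw [h]
    · exact hDm _ q q' hqq hq2
    · exact hγm q q' hqq hq2
    · exact hQm j q q' hqq (by omega)
  · intro j j' hne q hq q' hq'
    have hq2 := lt_of_lt_of_le hq (hle j)
    have hq2' := lt_of_lt_of_le hq' (hle j')
    rcases hcase j with ⟨hj, h⟩ | ⟨hj, h⟩ | ⟨hj, h⟩ <;>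
      rcases hcase j' with ⟨hj', h'⟩ | ⟨hj', h'⟩ | ⟨hj', h'⟩ <;> rw [h, h']
    · exact hDD _ _ q q' (fun e => hne (congrArg Subtype.val e)) hq2 hq2'
    · exact hDγ q _ q' hq2 hq2'
    · exact hDQ _ j' q q' hq2 (by omega)
    · exact hγD q _ q' hq2 hq2'
    · exact absurd (hj.trans hj'.symm) hne
    · exact hγQ q j' q' hq2 (by omega)
    · exact hQD j _ q q' (by omega) hq2'
    · exact hQγ q j q' (by omega) hq2'
    · exact hQQ j j' q q' hne (by omega) (by omega)

/-- Every set `G` outside the base family with `x a ∉ G`, `x b ∈ G`, `a + (K + 2) ≤ b`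
completes a copy of the union of chains. -/
theorem create {M K m : ℕ} {i : Fin m → ℕ} {j0 : Fin m} (hle : ∀ j, i j ≤ K + 2)
    (G : Set (V M K m {j : Fin m // i j = K + 2 ∧ j ≠ j0})) (hG : G ∉ F0 M K m _)
    (a b : Fin M) (hab : (a : ℕ) + (K + 2) ≤ b) (ha : V.x a ∉ G) (hb : V.x b ∈ G) :
    Copy (Σ j, Fin (i j)) (Set (V M K m {j : Fin m // i j = K + 2 ∧ j ≠ j0}))
      (insert G (F0 M K m _)) := by
  classical
  have hbM := b.isLt
  by_cases hmiss : (∃ h, V.z h ∉ G) ∨ ∃ j, V.t j ∉ G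
  · -- a forced point is missing
    obtain ⟨γ, τ, hτ, hγF, hγm, hγτ, hγb⟩ := chain_missing G hG b hb hmiss
    have hτD : ∀ (c : {j : Fin m // i j = K + 2 ∧ j ≠ j0}) (a' : ℕ),
        τ ∈ (DS c a' : Set (V M K m _)) := by
      rintro c a'
      rcases hτ with ⟨h, rfl⟩ | ⟨j, rfl⟩ <;> trivial
    have hτQ : ∀ (h : Fin m) (a' : ℕ),
        τ ∈ (QS h a' : Set (V M K m {j : Fin m // i j = K + 2 ∧ j ≠ j0})) := by
      rintro c a'
      rcases hτ with ⟨h, rfl⟩ | ⟨j, rfl⟩ <;> trivial
    refine assemble i j0 (K + 2) hle _ γ (fun c q => DS c (a + 1 + q)) (fun j q => QS j q)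
      hγF ?_ ?_ hγm ?_ ?_ ?_ ?_ ?_ ?_ ?_ ?_ ?_ ?_
    · intro c q hq
      exact Or.inr (Or.inl ⟨c, _, by omega, rfl⟩)
    · intro j q hq
      exact Or.inr (Or.inr ⟨_, Or.inr (Or.inr (Or.inr (Or.inr ⟨j, q, by omega, rfl, rfl⟩)))⟩)
    · intro c q q' hqq hq'
      exact DS_lt (by omega) (by omega)
    · intro j q q' hqq hq'
      exact QS_lt hqq (by omega)
    · intro q c q' hq hq' hsub
      rcases hγb q hq with h1 | ⟨i', h1⟩
      · have h2 : (b : ℕ) < a + 1 + q' := hsub h1
        omega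
      · exact hsub h1
    · intro q c q' hq hq' hsub
      exact hγτ q' hq' (hsub (hτD c _))
    · intro q j q' hq hq' hsub
      rcases hγb q hq with h1 | ⟨i', h1⟩
      · exact hsub h1
      · exact hsub h1
    · intro q j q' hq hq' hsub
      exact hγτ q' hq' (hsub (hτQ j _))
    · intro c c' q q' hcc hq hq' hsub
      exact hcc (hsub (a := V.c c) rfl)
    · intro c j q q' hq hq' hsub
      exact hsub (a := V.c c) rfl
    · intro j c q q' hq hq' hsub
      exact hsub (a := V.e j) rfl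
    · intro j j' q q' hjj hq hq' hsub
      exact hjj (hsub (a := V.e j) rfl)
  · -- all forced points are in `G`
    push Not at hmiss
    obtain ⟨hz, ht⟩ := hmiss
    set γ : ℕ → Set (V M K m {j : Fin m // i j = K + 2 ∧ j ≠ j0}) :=
      fun q => if q < K + 1 then XS b (q + 1) ∅ else G with hγ
    have hXF : ∀ q, q < K + 1 → (XS b (q + 1) ∅ :
        Set (V M K m {j : Fin m // i j = K + 2 ∧ j ≠ j0})) ∈ F0 M K m _ := fun q hq =>
      Or.inr ⟨_, Or.inr (Or.inl ⟨b, q + 1, ∅, by omega, by omega, by simp, rfl, rfl⟩)⟩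
    have hXG : ∀ q, q < K + 1 → (XS b (q + 1) ∅ :
        Set (V M K m {j : Fin m // i j = K + 2 ∧ j ≠ j0})) < G := by
      intro q hq
      refine ssub_of ?_ (fun he => hG (he ▸ hXF q hq))
      intro v hv
      cases v with
      | x y =>
        have : y = b := hv
        rw [this]
        exact hb
      | s i => exact absurd hv (Finset.notMem_empty i)
      | z h => exact hz h
      | t i => exact ht i
      | c _ => exact hv.elim
      | e _ => exact hv.elim
      | f _ => exact hv.elim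
    have hγF : ∀ q, γ q ∈ insert G (F0 M K m _) := by
      intro q
      by_cases h1 : q < K + 1
      · simp only [hγ, h1, if_true]
        exact Or.inr (hXF q h1)
      · simp only [hγ, h1, if_false]
        exact Or.inl rfl
    have hγm : ∀ q q', q < q' → q' < K + 2 → γ q < γ q' := by
      intro q q' hq hq'
      have h1 : q < K + 1 := by omega
      by_cases h2 : q' < K + 1
      · simp only [hγ, h1, h2, if_true]
        refine XS_lt (by omega) (by omega) (by omega) subset_rfl (by omega)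
      · simp only [hγ, h1, h2, if_true, if_false]
        exact hXG q h1
    have hγG : ∀ q, γ q ≤ G := by
      intro q
      by_cases h1 : q < K + 1
      · simp only [hγ, h1, if_true]
        exact (hXG q h1).le
      · simp only [hγ, h1, if_false]
        exact le_rfl
    have hγb : ∀ q, V.x b ∈ γ q := by
      intro q
      by_cases h1 : q < K + 1
      · simp only [hγ, h1, if_true]
        rfl
      · simp only [hγ, h1, if_false]
        exact hb
    have hγz : ∀ q h, V.z h ∈ γ q := by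
      intro q h
      by_cases h1 : q < K + 1
      · simp only [hγ, h1, if_true]
        exact Nat.succ_pos q
      · simp only [hγ, h1, if_false]
        exact hz h
    -- the spare chains: large sets missing `z j`
    obtain ⟨g, hg, hgm⟩ := nested (Finset.univ : Finset (Fin K))
    simp only [Finset.card_univ, Fintype.card_fin] at hg
    refine assemble i j0 (K + 2) hle _ γ (fun c q => DS c (a + 1 + q))
      (fun j q => WZ j (g (K - q)))
      (fun q _ => hγF q) ?_ ?_ hγm ?_ ?_ ?_ ?_ ?_ ?_ ?_ ?_ ?_ ?_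
    · intro c q hq
      exact Or.inr (Or.inl ⟨c, _, by omega, rfl⟩)
    · intro j q hq
      exact Or.inr (Or.inr ⟨_, Or.inr (Or.inr (Or.inl ⟨j, _, rfl, rfl⟩))⟩)
    · intro c q q' hqq hq'
      exact DS_lt (by omega) (by omega)
    · intro j q q' hqq hq'
      refine WZ_lt (hgm _ _ (by omega)) ?_
      rw [(hg (K - q) (by omega)).2, (hg (K - q') (by omega)).2]
      omega
    · intro q c q' hq hq' hsub
      have h2 : (b : ℕ) < a + 1 + q' := hsub (hγb q)
      omega
    · intro q c q' hq hq' hsub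
      exact ha (hγG q' (hsub (a := V.x a) (show (a : ℕ) < a + 1 + q by omega)))
    · intro q j q' hq hq' hsub
      exact (hsub (hγz q j)) rfl
    · intro q j q' hq hq' hsub
      exact ha (hγG q' (hsub (a := V.x a) trivial))
    · intro c c' q q' hcc hq hq' hsub
      exact hcc (hsub (a := V.c c) rfl)
    · intro c j q q' hq hq' hsub
      exact (hsub (a := V.z j) trivial) rfl
    · intro j c q q' hq hq' hsub
      have h2 : (b : ℕ) < a + 1 + q' := hsub (a := V.x b) trivial
      omega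
    · intro j j' q q' hjj hq hq' hsub
      exact (hsub (a := V.z j') (fun h => hjj h.symm)) rfl

/-- The sets of the base family have a listed trace. -/
theorem listed_F0 {M K m : ℕ} {ι : Type} (k : ℕ) (X : Set (V M K m ι)) (hX : X ∈ F0 M K m ι) :
    IsListed k X := by
  have hempty : ∀ X : Set (V M K m ι), (∀ y, V.x y ∉ X) → IsListed k X := by
    intro X hX
    refine ⟨Sum.inr (0, ∅), ?_⟩
    ext y
    simp [trace, npart, hX y]
  have hfull : ∀ X : Set (V M K m ι), (∀ y, V.x y ∈ X) → IsListed k X := by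
    intro X hX
    refine ⟨Sum.inr (Fin.last M, ∅), ?_⟩
    ext y
    simp [trace, npart, hX y]
  rcases hX with ⟨i, a, ha, rfl⟩ | ⟨ρ, ⟨S, hS, rfl, -⟩ | ⟨y, j, S, h1, h2, h3, rfl, -⟩ |
    ⟨h, S, rfl, -⟩ | ⟨j, S, h3, rfl, -⟩ | ⟨h, j, hj, rfl, -⟩⟩
  · refine ⟨Sum.inr (⟨a, by omega⟩, ∅), ?_⟩
    ext y
    simp only [trace, npart, Set.mem_ofPred_eq, Set.mem_empty_iff_false, false_and, exists_false,
      or_false]
    exact Iff.rfl
  · exact hempty _ (fun y h => h)
  · refine ⟨Sum.inl y, ?_⟩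
    ext y'
    simp only [trace, npart, Set.mem_ofPred_eq, Set.mem_singleton_iff]
    exact Iff.rfl
  · exact hfull _ (fun y => trivial)
  · exact hfull _ (fun y => trivial)
  · exact hempty _ (fun y h => h)

end Pool.Agent.Lib.MP_2b57cc_co
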