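import Mathlib
import Pool.Agent.Lib.MP_2b57cc_co.Main

set_option autoImplicit false

/-!
Helper file for MP_2b57cc_co: transport to subsets of `Fin n` and the linear bound.
-/

namespace Pool.Agent.Lib.MP_2b57cc_co

theorem copy_preimage {P X Y : Type} [LE P] [LE X] [LE Y] (φ : X ≃o Y) (F : Set Y) :
    Copy P X (φ ⁻¹' F) ↔ Copy P Y F := by
  constructor
  · rintro ⟨b, hb, hbb⟩
    exact ⟨fun p => φ (b p), hb, fun p q => by rw [hbb p q, φ.le_iff_le]⟩
  · rintro ⟨b, hb, hbb⟩
    refine ⟨fun p => φ.symm (b p), fun p => ?_, fun p q => ?_⟩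
    · simpa using hb p
    · rw [hbb p q, φ.symm.le_iff_le]

/-- Subsets of `Fin n` and subsets of a set in bijection with `Fin n`. -/
noncomputable def finsetSetIso {n : ℕ} {W : Type} (e : Fin n ≃ W) [DecidableEq W] :
    Finset (Fin n) ≃o Set W := by
  classical
  exact
  { toFun := fun S => {v | e.symm v ∈ S}
    invFun := fun G => Finset.univ.filter (fun i => e i ∈ G)
    left_inv := by
      intro S
      ext i
      simp
    right_inv := by
      intro G
      ext v
      simp
    map_rel_iff' := by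
      intro S T
      constructor
      · intro h i hi
        have := h (a := e i) (by simpa using hi)
        simpa using this
      · intro h v hv
        exact h hv }

/-- From a good base family on `V` to a small saturated family of subsets of `Fin n`. -/
theorem bound_V {P : Type} [LE P] {K m : ℕ} {ι : Type} [Fintype ι] (k n M : ℕ)
    (hn : n = M + Fintype.card (B K m ι)) (F0 : Set (Set (V M K m ι)))
    (hfree : ¬ Copy P _ F0) (hlisted : ∀ X ∈ F0, IsListed k X)
    (hcreate : ∀ G, G ∉ F0 → ∀ a b : Fin M, (a : ℕ) + k ≤ b → V.x a ∉ G → V.x b ∈ G →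
      Copy P _ (insert G F0)) :
    ∃ F : Finset (Finset (Fin n)), ¬ Copy P (Finset (Fin n)) (F : Set (Finset (Fin n))) ∧
      (∀ G, G ∉ F → Copy P (Finset (Fin n)) ((insert G F : Finset (Finset (Fin n))) :
        Set (Finset (Fin n)))) ∧
      F.card ≤ 2 ^ Fintype.card (B K m ι) * (M + (M + 1) * 2 ^ k) := by
  classical
  have hV : Nat.card (V M K m ι) = n := by
    rw [Nat.card_congr (V.equiv M K m ι), Nat.card_eq_fintype_card, Fintype.card_sum,
      Fintype.card_fin, hn]
  have hfinV : Finite (V M K m ι) := Finite.of_equiv _ (V.equiv M K m ι).symm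
  have e : Fin n ≃ V M K m ι := by
    rw [← hV]
    exact (Finite.equivFin _).symm
  obtain ⟨F, hFR, hF1, hF2⟩ := greedy (P := P) F0 {G | G ∈ F0 ∨ IsListed k G} hfree
    (fun X hX => Or.inl hX)
    (by
      intro G hG
      simp only [Set.mem_ofPred_eq, not_or] at hG
      obtain ⟨hG0, hGl⟩ := hG
      have : ∃ a b : Fin M, (a : ℕ) + k ≤ b ∧ V.x a ∉ G ∧ V.x b ∈ G := by
        by_contra hno
        push Not at hno
        exact hGl (isListed_of_no_pair k G (fun a b hab ha => hno a b hab ha))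
      obtain ⟨a, b, hab, ha, hb⟩ := this
      exact hcreate G hG0 a b hab ha hb)
  set φ := finsetSetIso e with hφ
  refine ⟨Finset.univ.filter (fun S => φ S ∈ F), ?_, ?_, ?_⟩
  · have h1 : ((Finset.univ.filter (fun S => φ S ∈ F) : Finset (Finset (Fin n))) :
        Set (Finset (Fin n))) = φ ⁻¹' F := by
      ext S
      simp
    rw [h1, copy_preimage]
    exact hF1
  · intro G hG
    have h1 : ((insert G (Finset.univ.filter (fun S => φ S ∈ F)) : Finset (Finset (Fin n))) :
        Set (Finset (Fin n))) = φ ⁻¹' (insert (φ G) F) := by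
      ext S
      simp
    rw [h1, copy_preimage]
    apply hF2
    simpa using hG
  · have h1 : (Finset.univ.filter (fun S => φ S ∈ F)) ⊆
        (Finset.univ : Finset (Set (B K m ι) × (Fin M ⊕ (Fin (M + 1) × Set (Fin k))))).image
          (fun d => φ.symm (param M K m k ι d)) := by
      intro S hS
      simp only [Finset.mem_filter, Finset.mem_univ, true_and] at hS
      have h2 : IsListed k (φ S) := by
        rcases hFR hS with h | h
        · exact hlisted _ h
        · exact h
      obtain ⟨d, hd⟩ := exists_param (φ S) h2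
      simp only [Finset.mem_image, Finset.mem_univ, true_and]
      exact ⟨d, by rw [hd]; simp⟩
    refine (Finset.card_le_card h1).trans (Finset.card_image_le.trans ?_)
    have h3 := card_param M K m k ι
    rw [Nat.card_eq_fintype_card] at h3
    rw [Finset.card_univ]
    exact h3.le

/-- The trivial bound. -/
theorem bound_trivial {P : Type} [LE P] [Nonempty P] (n : ℕ) :
    ∃ F : Finset (Finset (Fin n)), ¬ Copy P (Finset (Fin n)) (F : Set (Finset (Fin n))) ∧
      (∀ G, G ∉ F → Copy P (Finset (Fin n)) ((insert G F : Finset (Finset (Fin n))) :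
        Set (Finset (Fin n)))) ∧
      F.card ≤ 2 ^ n := by
  classical
  obtain ⟨F, -, hF1, hF2⟩ := greedy (P := P) (X := Finset (Fin n)) ∅ Set.univ
    (by
      rintro ⟨b, hb, -⟩
      obtain ⟨p⟩ := ‹Nonempty P›
      exact hb p)
    (Set.subset_univ _) (fun G hG => absurd (Set.mem_univ G) hG)
  refine ⟨Finset.univ.filter (fun S => S ∈ F), ?_, ?_, ?_⟩
  · have h1 : ((Finset.univ.filter (fun S => S ∈ F) : Finset (Finset (Fin n))) :
        Set (Finset (Fin n))) = F := by
      ext S
      simp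
    rw [h1]
    exact hF1
  · intro G hG
    have h1 : ((insert G (Finset.univ.filter (fun S => S ∈ F)) : Finset (Finset (Fin n))) :
        Set (Finset (Fin n))) = insert G F := by
      ext S
      simp
    rw [h1]
    apply hF2
    simpa using hG
  · refine (Finset.card_filter_le _ _).trans ?_
    simp

/-- The linear bound for a disjoint union of chains. -/
theorem linear_bound (m : ℕ) (hm : 1 ≤ m) (i : Fin m → ℕ) (hi : ∀ j, 1 ≤ i j) :
    ∃ C : ℕ, ∀ n : ℕ, 1 ≤ n →
      ∃ F : Finset (Finset (Fin n)),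
        ¬ Copy (Σ j, Fin (i j)) (Finset (Fin n)) (F : Set (Finset (Fin n))) ∧
        (∀ G, G ∉ F → Copy (Σ j, Fin (i j)) (Finset (Fin n))
          ((insert G F : Finset (Finset (Fin n))) : Set (Finset (Fin n)))) ∧
        F.card ≤ C * n := by
  classical
  have hne : Nonempty (Fin m) := ⟨⟨0, hm⟩⟩
  obtain ⟨j0, hj0⟩ := Finite.exists_max i
  have hneP : Nonempty (Σ j, Fin (i j)) := ⟨⟨j0, ⟨0, hi j0⟩⟩⟩
  -- it suffices to bound for large `n`
  suffices h : ∃ (n0 C0 : ℕ), ∀ M : ℕ, 1 ≤ M → ∃ F : Finset (Finset (Fin (M + n0))),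
        ¬ Copy (Σ j, Fin (i j)) (Finset (Fin (M + n0))) (F : Set (Finset (Fin (M + n0)))) ∧
        (∀ G, G ∉ F → Copy (Σ j, Fin (i j)) (Finset (Fin (M + n0)))
          ((insert G F : Finset (Finset (Fin (M + n0)))) : Set (Finset (Fin (M + n0))))) ∧
        F.card ≤ C0 * (M + 1) by
    obtain ⟨n0, C0, h⟩ := h
    refine ⟨2 ^ n0 + 2 * C0, fun n hn => ?_⟩
    by_cases hlt : n ≤ n0
    · obtain ⟨F, h1, h2, h3⟩ := bound_trivial (P := Σ j, Fin (i j)) n
      refine ⟨F, h1, h2, h3.trans ?_⟩
      calc 2 ^ n ≤ 2 ^ n0 := Nat.pow_le_pow_right (by norm_num) hlt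
        _ ≤ (2 ^ n0 + 2 * C0) * 1 := by omega
        _ ≤ (2 ^ n0 + 2 * C0) * n := Nat.mul_le_mul_left _ hn
    · obtain ⟨M, rfl⟩ : ∃ M, n = M + n0 := ⟨n - n0, by omega⟩
      obtain ⟨F, h1, h2, h3⟩ := h M (by omega)
      refine ⟨F, h1, h2, h3.trans ?_⟩
      calc C0 * (M + 1) ≤ C0 * (2 * (M + n0)) := Nat.mul_le_mul_left _ (by omega)
        _ = (2 * C0) * (M + n0) := by ring
        _ ≤ (2 ^ n0 + 2 * C0) * (M + n0) := Nat.mul_le_mul_right _ (Nat.le_add_left _ _)
  by_cases hk : i j0 = 1
  · -- antichains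
    have hall : ∀ j, i j ≤ 1 := fun j => hk ▸ hj0 j
    refine ⟨Fintype.card (B 0 0 {j : Fin m // i j = 1 ∧ j ≠ j0}),
      2 ^ Fintype.card (B 0 0 {j : Fin m // i j = 1 ∧ j ≠ j0}) * (1 + 2 ^ 1), fun M hM => ?_⟩
    obtain ⟨F, h1, h2, h3⟩ := bound_V (P := Σ j, Fin (i j)) (K := 0) (m := 0)
      (ι := {j : Fin m // i j = 1 ∧ j ≠ j0}) 1 _ M rfl
      {X | ∃ c a, a ≤ M ∧ X = DS c a}
      (free_aux hk _ (by
        intro u _ huF
        obtain ⟨c, a, -, h⟩ := huF 0
        exact ⟨0, c, a, h⟩))
      (by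
        rintro X ⟨c, a, ha, rfl⟩
        exact listed_F0 1 _ (Or.inl ⟨c, a, ha, rfl⟩))
      (by
        intro G hG a b hab ha hb
        have hbM := b.isLt
        refine assemble i j0 1 hall _ (fun _ => G) (fun c q => DS c (a + 1 + q))
          (fun _ _ => G) ?_ ?_ ?_ ?_ ?_ ?_ ?_ ?_ ?_ ?_ ?_ ?_ ?_ ?_
        · intro q _
          exact Or.inl rfl
        · intro c q hq
          exact Or.inr ⟨c, _, by omega, rfl⟩
        · intro j q hq
          omega
        · intro q q' hq hq'
          omega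
        · intro c q q' hq hq'
          omega
        · intro j q q' hq hq'
          omega
        · intro q c q' hq hq' hsub
          have h2 : (b : ℕ) < a + 1 + q' := hsub hb
          omega
        · intro q c q' hq hq' hsub
          exact ha (hsub (a := V.x a) (show (a : ℕ) < a + 1 + q by omega))
        · intro q j q' hq hq'
          omega
        · intro q j q' hq hq'
          omega
        · intro c c' q q' hcc hq hq' hsub
          exact hcc (hsub (a := V.c c) rfl)
        · intro c j q q' hq hq'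
          omega
        · intro j c q q' hq hq'
          omega
        · intro j j' q q' hjj hq hq'
          omega)
    refine ⟨F, h1, h2, h3.trans ?_⟩
    rw [mul_assoc]
    refine Nat.mul_le_mul_left _ ?_
    nlinarith
  · -- the longest chain has at least two elements
    obtain ⟨K, hK⟩ : ∃ K, i j0 = K + 2 := ⟨i j0 - 2, by have := hi j0; omega⟩
    have hall : ∀ j, i j ≤ K + 2 := fun j => hK ▸ hj0 j
    refine ⟨Fintype.card (B K m {j : Fin m // i j = K + 2 ∧ j ≠ j0}),
      2 ^ Fintype.card (B K m {j : Fin m // i j = K + 2 ∧ j ≠ j0}) * (1 + 2 ^ (K + 2)),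
      fun M hM => ?_⟩
    have hneM : Nonempty (Fin M) := ⟨⟨0, hM⟩⟩
    obtain ⟨F, h1, h2, h3⟩ := bound_V (P := Σ j, Fin (i j)) (K := K) (m := m)
      (ι := {j : Fin m // i j = K + 2 ∧ j ≠ j0}) (K + 2) _ M rfl
      (F0 M K m {j : Fin m // i j = K + 2 ∧ j ≠ j0})
      (free_aux hK _ (by
        intro u hu huF
        obtain ⟨q, hq⟩ := no_long_chain u hu
        refine ⟨q, ?_⟩
        rcases huF q with ⟨c, a, -, h⟩ | ⟨ρ, hρ⟩
        · exact ⟨c, a, h⟩
        · exact absurd hρ (hq ρ)))
      (fun X hX => listed_F0 (K + 2) X hX)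
      (fun G hG a b hab ha hb => create hall G hG a b hab ha hb)
    refine ⟨F, h1, h2, h3.trans ?_⟩
    rw [mul_assoc]
    refine Nat.mul_le_mul_left _ ?_
    nlinarith [Nat.zero_le (2 ^ (K + 2))]

end Pool.Agent.Lib.MP_2b57cc_co
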